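import Mathlib

/-!
# Indecomposable cycle sets all of whose left multiplications have cycles of given coprime lengths

Let `n ≥ 2`, let `R` be a finite commutative ring in which `n = 0`, and let `a ∈ R` be such that
`a` and `a - 1` are units.  On the set of all maps `ZMod n → R` put
`(x · y) i = a * y i - (i - 1) * y (i - 1) + x (i - 1)`.
This is an (affine) indecomposable cycle set, and each left multiplication is conjugate to a map
that contains the multiplication by `a` on `R`.  For `R` we take a product of the rings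
`(ℤ/n)[X] / Φ_k(X)`, where `Φ_k` is the `k`-th cyclotomic polynomial, and for `a` the class of `X`.
-/

set_option autoImplicit false

open Polynomial

namespace Pool.Agent.Y996.CS

universe u

/-- A cycle set structure on `X`: all left multiplications are bijective and
`(x · y) · (x · z) = (y · x) · (y · z)`. -/
structure CycleSet (X : Type u) where
  /-- the operation -/
  op : X → X → X
  /-- left multiplications are bijective -/
  bij : ∀ x, Function.Bijective (op x)
  /-- the cycle set identity -/
  cyc : ∀ x y z, op (op x y) (op x z) = op (op y x) (op y z)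

/-- A cycle set is decomposable if it is the disjoint union of nonempty sets `Y`, `Z` with
`Y · Z ⊆ Z` and `Z · Y ⊆ Y`. -/
def Decomposable {X : Type u} (C : CycleSet X) : Prop :=
  ∃ Y Z : Set X, Y.Nonempty ∧ Z.Nonempty ∧ Y ∪ Z = Set.univ ∧ Disjoint Y Z ∧
    (∀ y ∈ Y, ∀ z ∈ Z, C.op y z ∈ Z) ∧ (∀ z ∈ Z, ∀ y ∈ Y, C.op z y ∈ Y)

/-- The left multiplication by `x` contains a cycle of length `k`; fixed points are not counted. -/
def HasCycle {X : Type u} (C : CycleSet X) (x : X) (k : ℕ) : Prop :=
  2 ≤ k ∧ ∃ y, Function.minimalPeriod (C.op x) y = k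

/-! ### General facts on finite cycle sets -/

/-- If some point can be moved to every other point by one left multiplication, then a finite
cycle set is indecomposable. -/
theorem indecomposable_of_trans {X : Type u} [Finite X] (C : CycleSet X)
    (h : ∀ p q : X, ∃ x, C.op x p = q) : ¬ Decomposable C := by
  rintro ⟨Y, Z, ⟨p, hp⟩, ⟨q, hq⟩, hu, hd, hYZ, hZY⟩
  have hmem : ∀ x, x ∈ Y ∨ x ∈ Z := fun x => by
    have : x ∈ Y ∪ Z := by rw [hu]; trivial
    exact this
  have hdis : ∀ x, x ∈ Y → x ∈ Z → False := fun x h1 h2 => Set.disjoint_left.mp hd h1 h2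
  have hY : ∀ x y, y ∈ Y → C.op x y ∈ Y := by
    intro x y hy
    rcases hmem x with hx | hx
    · rcases hmem (C.op x y) with h | h
      · exact h
      · exfalso
        have hsub : C.op x '' Z ⊆ Z := by
          rintro _ ⟨z, hz, rfl⟩
          exact hYZ x hx z hz
        have himg : C.op x '' Z = Z := by
          apply Set.eq_of_subset_of_ncard_le hsub _ (Set.toFinite Z)
          rw [Set.ncard_image_of_injective Z (C.bij x).1]
        rw [← himg] at h
        obtain ⟨z, hz, hzy⟩ := h
        have := (C.bij x).1 hzy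
        subst this
        exact hdis z hy hz
    · exact hZY x hx y hy
  obtain ⟨x, hx⟩ := h p q
  apply hdis q _ hq
  rw [← hx]
  exact hY _ _ hp

/-! ### The affine cycle sets -/

section affine

variable {n : ℕ} [NeZero n] {R : Type} [CommRing R] [Algebra (ZMod n) R]

/-- the operation `(x · y) i = a * y i - (i - 1) * y (i - 1) + x (i - 1)` -/
def aop (a : R) (x y : ZMod n → R) : ZMod n → R := fun i =>
  a * y i - algebraMap (ZMod n) R (i - 1) * y (i - 1) + x (i - 1)

theorem aop_cyc (a : R) (x y z : ZMod n → R) :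
    aop a (aop a x y) (aop a x z) = aop a (aop a y x) (aop a y z) := by
  funext i
  simp only [aop, map_sub, map_one]
  ring

theorem aop_inj (a : R) (ha : IsUnit a) (x : ZMod n → R) : Function.Injective (aop a x) := by
  intro y y' h
  have hz : ∀ i : ZMod n, a * (y i - y' i) =
      algebraMap (ZMod n) R (i - 1) * (y (i - 1) - y' (i - 1)) := by
    intro i
    have := congrFun h i
    simp only [aop] at this
    linear_combination this
  have key : ∀ m : ℕ, y ((m : ZMod n) + 1) - y' ((m : ZMod n) + 1) = 0 := by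
    intro m
    induction m with
    | zero =>
        have h1 := hz (((0 : ℕ) : ZMod n) + 1)
        simp only [Nat.cast_zero, zero_add, sub_self, map_zero, zero_mul] at h1 ⊢
        exact (ha.mul_right_eq_zero).1 h1
    | succ m ih =>
        have h1 := hz (((m + 1 : ℕ) : ZMod n) + 1)
        have e : (((m + 1 : ℕ) : ZMod n) + 1) - 1 = (m : ZMod n) + 1 := by push_cast; ring
        rw [e, ih, mul_zero] at h1
        exact (ha.mul_right_eq_zero).1 h1
  funext i
  have h2 := key (i - 1).val
  rw [ZMod.natCast_zmod_val] at h2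
  have e : (i - 1) + 1 = i := by ring
  rw [e] at h2
  exact sub_eq_zero.1 h2

theorem aop_bij [Finite R] (a : R) (ha : IsUnit a) (x : ZMod n → R) :
    Function.Bijective (aop a x) :=
  Finite.injective_iff_bijective.mp (aop_inj a ha x)

/-- the affine cycle set -/
def aff [Finite R] (a : R) (ha : IsUnit a) : CycleSet (ZMod n → R) where
  op := aop a
  bij := aop_bij a ha
  cyc := aop_cyc a

theorem aff_indecomposable [Finite R] (a : R) (ha : IsUnit a) :
    ¬ Decomposable (aff (n := n) a ha) := by
  apply indecomposable_of_trans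
  intro p q
  refine ⟨fun j => q (j + 1) - a * p (j + 1) + algebraMap (ZMod n) R j * p j, ?_⟩
  funext i
  change a * p i - algebraMap (ZMod n) R (i - 1) * p (i - 1) +
    (q (i - 1 + 1) - a * p (i - 1 + 1) + algebraMap (ZMod n) R (i - 1) * p (i - 1)) = q i
  have e : i - 1 + 1 = i := by ring
  rw [e]
  ring

theorem exists_fix [Finite R] (a : R) (ha : IsUnit (a - 1)) (x : ZMod n → R) :
    ∃ y, aop a x y = y := by
  obtain ⟨y, hy⟩ := (aop_bij (a - 1) ha x).2 0
  refine ⟨y, ?_⟩
  funext i
  have h := congrFun hy i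
  simp only [aop, Pi.zero_apply] at h ⊢
  linear_combination h

theorem aop_single (a : R) (x y : ZMod n → R) (hy : aop a x y = y) (r : R) :
    aop a x (y + Pi.single 0 r) = y + Pi.single 0 (a * r) := by
  funext i
  have h := congrFun hy i
  simp only [aop, Pi.add_apply] at h ⊢
  by_cases h0 : i = 0
  · subst h0
    by_cases h1 : (0 : ZMod n) - 1 = 0
    · rw [h1] at h ⊢
      simp only [Pi.single_eq_same, map_zero, zero_mul] at h ⊢
      linear_combination h
    · rw [Pi.single_eq_same, Pi.single_eq_same, Pi.single_eq_of_ne h1]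
      linear_combination h
  · rw [Pi.single_eq_of_ne h0, Pi.single_eq_of_ne h0]
    by_cases h1 : i - 1 = 0
    · rw [h1] at h ⊢
      simp only [Pi.single_eq_same, map_zero, zero_mul] at h ⊢
      linear_combination h
    · rw [Pi.single_eq_of_ne h1]
      linear_combination h

theorem aop_iter (a : R) (x y : ZMod n → R) (hy : aop a x y = y) (r : R) (m : ℕ) :
    (aop a x)^[m] (y + Pi.single 0 r) = y + Pi.single 0 (a ^ m * r) := by
  induction m with
  | zero => simp
  | succ m ih =>
      rw [Function.iterate_succ_apply', ih, aop_single a x y hy, pow_succ']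
      congr 2
      ring

theorem aff_cycle [Finite R] (a : R) (ha : IsUnit a) (ha1 : IsUnit (a - 1)) (r : R) (k : ℕ)
    (hk : 2 ≤ k) (h : ∀ m : ℕ, a ^ m * r = r ↔ k ∣ m) (x : ZMod n → R) :
    HasCycle (aff a ha) x k := by
  obtain ⟨y, hy⟩ := exists_fix a ha1 x
  refine ⟨hk, y + Pi.single 0 r, ?_⟩
  have hper : ∀ m : ℕ, Function.IsPeriodicPt (aop a x) m (y + Pi.single 0 r) ↔ k ∣ m := by
    intro m
    rw [← h m, Function.IsPeriodicPt, Function.IsFixedPt, aop_iter a x y hy]
    constructor
    · intro h1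
      have h2 := congrFun (add_left_cancel h1) 0
      rwa [Pi.single_eq_same, Pi.single_eq_same] at h2
    · intro h1
      rw [h1]
  apply Nat.dvd_antisymm
  · exact Function.isPeriodicPt_iff_minimalPeriod_dvd.1 ((hper k).2 dvd_rfl)
  · exact (hper _).1 (Function.isPeriodicPt_minimalPeriod (aop a x) _)

end affine

/-! ### The rings `(ℤ/n)[X] / Φ_k(X)` -/

section ring

variable (n : ℕ) (k : ℕ)

/-- the ring `(ℤ/n)[X] / Φ_k(X)` -/
abbrev CR : Type := AdjoinRoot (cyclotomic k (ZMod n))

theorem card_CR (hn : 2 ≤ n) : Finite (CR n k) ∧ Nat.card (CR n k) = n ^ k.totient := by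
  haveI : NeZero n := ⟨by omega⟩
  haveI : Fact (1 < n) := ⟨by omega⟩
  have hm : (cyclotomic k (ZMod n)).Monic := cyclotomic.monic k _
  let b := (AdjoinRoot.powerBasis' hm).basis
  haveI : Module.Finite (ZMod n) (CR n k) := Module.Finite.of_basis b
  haveI : Finite (CR n k) := Module.finite_of_finite (ZMod n)
  refine ⟨inferInstance, ?_⟩
  rw [Nat.card_congr b.equivFun.toEquiv, Nat.card_fun, Nat.card_zmod, Nat.card_fin,
    AdjoinRoot.powerBasis'_dim, natDegree_cyclotomic]

theorem root_pow (hk : 0 < k) : (AdjoinRoot.root (cyclotomic k (ZMod n))) ^ k = 1 := by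
  have h1 : cyclotomic k (ZMod n) ∣ X ^ k - 1 := cyclotomic.dvd_X_pow_sub_one k _
  have h2 : AdjoinRoot.mk (cyclotomic k (ZMod n)) (X ^ k - 1) = 0 := AdjoinRoot.mk_eq_zero.2 h1
  rw [map_sub, map_pow, map_one, AdjoinRoot.mk_X] at h2
  exact sub_eq_zero.1 h2

theorem unit_sub (hk : 0 < k) (hc : Nat.Coprime k n) (d : ℕ) (hd : d ∈ k.properDivisors) :
    IsUnit ((AdjoinRoot.root (cyclotomic k (ZMod n))) ^ d - 1) := by
  obtain ⟨Q, hQ⟩ := X_pow_sub_one_mul_cyclotomic_dvd_X_pow_sub_one_of_dvd (ZMod n) hd
  have h1 := congrArg derivative hQ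
  rw [derivative_mul, derivative_mul] at h1
  have h2 := congrArg (AdjoinRoot.mk (cyclotomic k (ZMod n))) h1
  simp only [map_add, map_mul, AdjoinRoot.mk_self, mul_zero, zero_mul, add_zero, zero_add,
    derivative_sub, derivative_one, derivative_X_pow, map_sub, map_pow, AdjoinRoot.mk_X, map_one,
    map_zero, sub_zero, map_natCast] at h2
  have hr : IsUnit (AdjoinRoot.root (cyclotomic k (ZMod n))) :=
    IsUnit.of_pow_eq_one (root_pow n k hk) hk.ne'
  have hkk : IsUnit ((k : ℕ) : CR n k) := by
    have h3 : IsUnit ((k : ℕ) : ZMod n) := (ZMod.isUnit_iff_coprime k n).2 hc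
    have h4 := h3.map (algebraMap (ZMod n) (CR n k))
    rwa [map_natCast] at h4
  have h5 : IsUnit (((k : ℕ) : CR n k) * (AdjoinRoot.root (cyclotomic k (ZMod n))) ^ (k - 1)) :=
    hkk.mul (hr.pow _)
  have h6 : ((AdjoinRoot.root (cyclotomic k (ZMod n))) ^ d - 1) ∣
      (((k : ℕ) : CR n k) * (AdjoinRoot.root (cyclotomic k (ZMod n))) ^ (k - 1)) := by
    rw [h2]
    exact ⟨_, mul_assoc _ _ _⟩
  exact isUnit_of_dvd_unit h6 h5

theorem pow_eq_one_iff (hn : 2 ≤ n) (hk : 0 < k) (hc : Nat.Coprime k n) (m : ℕ) :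
    (AdjoinRoot.root (cyclotomic k (ZMod n))) ^ m = 1 ↔ k ∣ m := by
  haveI := (card_CR n k hn).1
  haveI : Nontrivial (CR n k) := by
    rw [← Finite.one_lt_card_iff_nontrivial, (card_CR n k hn).2]
    exact Nat.one_lt_pow (Nat.totient_pos.2 hk).ne' (by omega)
  have ho : orderOf (AdjoinRoot.root (cyclotomic k (ZMod n))) = k := by
    have h1 := orderOf_dvd_of_pow_eq_one (root_pow n k hk)
    by_contra hne
    have h2 : orderOf (AdjoinRoot.root (cyclotomic k (ZMod n))) ∈ k.properDivisors := by
      rw [Nat.mem_properDivisors]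
      exact ⟨h1, lt_of_le_of_ne (Nat.le_of_dvd hk h1) hne⟩
    have h3 := unit_sub n k hk hc _ h2
    rw [pow_orderOf_eq_one, sub_self] at h3
    exact not_isUnit_zero h3
  rw [← orderOf_dvd_iff_pow_eq_one, ho]

end ring

/-- **Theorem.** Let `n ≥ 2` and let `S` be a finite set of integers `k ≥ 2` coprime to `n`.  There
is a finite indecomposable cycle set `X`, of size a power of `n`, such that for every `x` and
every `k ∈ S` the left multiplication by `x` contains a cycle of length `k`; and `k` is coprime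
to the size of `X`. -/
theorem result (n : ℕ) (hn : 2 ≤ n) (S : Finset ℕ) (hS : ∀ k ∈ S, 2 ≤ k ∧ Nat.Coprime k n) :
    ∃ (X : Type) (_ : Finite X) (C : CycleSet X),
      Nat.card X = n ^ (n * ∑ k ∈ S, k.totient) ∧ ¬ Decomposable C ∧
      ∀ k ∈ S, Nat.Coprime k (Nat.card X) ∧ ∀ x, HasCycle C x k := by
  haveI : NeZero n := ⟨by omega⟩
  haveI hfin : ∀ k : S, Finite (CR n k) := fun k => (card_CR n k hn).1
  let R : Type := ∀ k : S, CR n k
  let a : R := fun k => AdjoinRoot.root (cyclotomic (k : ℕ) (ZMod n))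
  have ha : IsUnit a := by
    rw [Pi.isUnit_iff]
    intro k
    exact IsUnit.of_pow_eq_one (root_pow n k (by have := (hS k k.2).1; omega))
      (by have := (hS k k.2).1; omega)
  have ha1 : IsUnit (a - 1) := by
    rw [Pi.isUnit_iff]
    intro k
    have h1 := unit_sub n k (by have := (hS k k.2).1; omega) (hS k k.2).2 1
      (by
        rw [Nat.mem_properDivisors]
        exact ⟨one_dvd _, by have := (hS k k.2).1; omega⟩)
    rwa [pow_one] at h1
  have hcard : Nat.card (ZMod n → R) = n ^ (n * ∑ k ∈ S, k.totient) := by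
    rw [Nat.card_fun, Nat.card_zmod, Nat.card_pi]
    have h1 : ∀ k : S, Nat.card (CR n k) = n ^ (k : ℕ).totient := fun k => (card_CR n k hn).2
    rw [Finset.prod_congr rfl (fun k _ => h1 k), Finset.prod_pow_eq_pow_sum, ← pow_mul, mul_comm]
    congr 2
    exact Finset.sum_coe_sort S (fun k => k.totient)
  refine ⟨ZMod n → R, inferInstance, aff a ha, hcard, aff_indecomposable a ha, ?_⟩
  intro k hk
  refine ⟨?_, ?_⟩
  · rw [hcard]
    exact Nat.Coprime.pow_right _ (hS k hk).2
  intro x
  refine aff_cycle a ha ha1 (Pi.single ⟨k, hk⟩ 1) k (hS k hk).1 ?_ x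
  intro m
  rw [← pow_eq_one_iff n k hn (by have := (hS k hk).1; omega) (hS k hk).2 m]
  constructor
  · intro h
    have h1 := congrFun h ⟨k, hk⟩
    rw [Pi.mul_apply, Pi.single_eq_same, mul_one] at h1
    exact h1
  · intro h
    funext j
    by_cases hj : j = ⟨k, hk⟩
    · subst hj
      rw [Pi.mul_apply, Pi.single_eq_same, mul_one]
      exact h
    · rw [Pi.mul_apply, Pi.single_eq_of_ne hj, mul_zero]

end Pool.Agent.Y996.CS
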